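import Pool.Agent.H87.D3.Targets2

/-!
# Row KLN of d3h_modules (MP_2697e3_an): the three scale inequality for any line
-/

set_option autoImplicit false

namespace Pool.Agent.H63.D3

open MeasureTheory Metric Set Filter Topology Pool.Agent.H87.SN Pool.Agent.H87.SH
  Pool.Agent.H87.AX Pool.Agent.H87.D3
open scoped ContDiff RealInnerProductSpace ENNReal

theorem exG (T : V) (hT : ‖T‖ = 1) : ∃ g : V ≃ₗᵢ[ℝ] V, g (bv 2) = T := by
  have hb : ‖(bv 2 : V)‖ = 1 := by
    unfold bv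
    simp
  exact ⟨(Submodule.span ℝ {(bv 2 : V) - T})ᗮ.reflection, Submodule.reflection_sub
    (hb.trans hT.symm)⟩

theorem dl_zm (a T : V) (g : V ≃ₗᵢ[ℝ] V) (hg : g (bv 2) = T) (y : V) :
    dl a T (zm a (1 / 2) g y) = 1 / 4 * rho y ^ 2 := by
  unfold dl zm rho
  rw [add_sub_cancel_left, norm_smul, real_inner_smul_left, ← hg, g.inner_map_map, g.norm_map,
    Real.sq_sqrt (by positivity)]
  have h1 : ‖y‖ ^ 2 = y 0 ^ 2 + y 1 ^ 2 + y 2 ^ 2 := by
    rw [EuclideanSpace.norm_sq_eq]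
    simp only [Real.norm_eq_abs, sq_abs]
    exact Fin.sum_univ_three _
  have h2 : ⟪y, (bv 2 : V)⟫ = y 2 := by
    unfold bv
    rw [EuclideanSpace.inner_single_right]
    simp
  rw [h2, mul_pow, h1]
  norm_num
  ring

theorem pf_KLN (hKST : T_KST) (hZOM : T_ZOM) (hZMU : T_ZMU) : T_KLN := by
  intro L hL
  obtain ⟨δ, C, hδ, hC, hK⟩ := hKST L hL
  refine ⟨δ, 12 * C, hδ, by positivity, ?_⟩
  intro m Λ ε U u G hSM a T σ h hT ha hh hhσ hσ hyp
  obtain ⟨g, hg⟩ := exG T hT
  have hsub : ball a (2 * (1 / 2 : ℝ)) ⊆ ball (0 : V) 2 := by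
    apply ball_subset_ball'
    rw [dist_zero_right]
    linarith
  have hhalf : (0 : ℝ) < 1 / 2 := by norm_num
  obtain ⟨hZ1, hZ2⟩ := hZOM m L Λ ε U u G hSM a (1 / 2) g hhalf hsub
  obtain ⟨-, hM1, -, hM3, -, -⟩ := hZMU m G a (1 / 2) g hSM.gd.memG hhalf hsub
  have hσ0 : 0 < σ := by linarith
  have hdl := dl_zm a T g hg
  have hzm0 : zm a (1 / 2) g 0 = a := by
    unfold zm
    simp
  have hball : ∀ s : ℝ, zm a (1 / 2) g '' ball 0 s = ball a (1 / 2 * s) := by
    intro s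
    rw [hM3, hzm0]
  -- the scaled inequality
  have hmain := hK m Λ ε _ _ _ hZ1 (2 * σ) (2 * h) (by linarith) (by linarith) (by linarith) (by
    intro x hx hrx
    have hx' : ‖x‖ < 7 / 16 := by simpa using hx
    have hy : zm a (1 / 2) g x ∈ ball (0 : V) (1 / 2) := by
      rw [mem_ball_zero_iff]
      unfold zm
      refine (norm_add_le _ _).trans_lt ?_
      rw [norm_smul, g.norm_map]
      norm_num
      linarith
    have hr0 : 0 < rho x := by linarith
    have h1 : h ^ 2 / 4 < dl a T (zm a (1 / 2) g x) := by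
      rw [hdl]
      have : h < rho x := by linarith
      nlinarith
    obtain ⟨h2, h3⟩ := hyp _ hy h1
    have h4 : x ∈ ball (0 : V) 2 ∩ zm a (1 / 2) g ⁻¹' U := by
      refine ⟨?_, h2⟩
      rw [mem_ball_zero_iff]
      linarith
    refine ⟨h4, ?_⟩
    rw [(hZ2 x h4).1]
    rw [hdl] at h3
    linarith)
  -- the integrals
  have hdm : Measurable (fun x : V => dl a T x) := by
    unfold dl
    fun_prop
  have hrm : Measurable (fun x : V => rho x) := by
    unfold rho
    fun_prop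
  have hint : ∀ S : Set V, MeasurableSet S → S ⊆ ball 0 2 →
      ∫⁻ x in S, ENNReal.ofReal (rho x ^ 2) ∂(mu (zG a (1 / 2) g G)) =
        8 * ∫⁻ x in zm a (1 / 2) g '' S, ENNReal.ofReal (dl a T x) ∂(mu G) := by
    intro S hS hS2
    have h1 := hM1 (fun x => ENNReal.ofReal (4 * dl a T x)) S (by fun_prop) hS hS2
    have h2 : ∀ x : V, ENNReal.ofReal (4 * dl a T (zm a (1 / 2) g x)) =
        ENNReal.ofReal (rho x ^ 2) := by
      intro x
      rw [hdl]
      congr 1
      ring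
    simp_rw [h2] at h1
    rw [h1]
    have h3 : ∀ x : V, ENNReal.ofReal (4 * dl a T x) = 4 * ENNReal.ofReal (dl a T x) := by
      intro x
      rw [ENNReal.ofReal_mul (by norm_num)]
      norm_num
    simp_rw [h3]
    rw [lintegral_const_mul _ (by fun_prop), ← mul_assoc]
    congr 1
    have h4 : ((1 / 2 : ℝ))⁻¹ = 2 := by norm_num
    rw [h4]
    norm_num
  have hi1 := hint (ball 0 (10 * (2 * σ))) measurableSet_ball (ball_subset_ball (by linarith))
  have hi2 := hint (ball 0 (1 / 4)) measurableSet_ball (ball_subset_ball (by norm_num))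
  have hset : MeasurableSet {x : V | x ∈ ball (0 : V) (1 / 4) ∧ rho x < 2 * (2 * h)} := by
    apply MeasurableSet.inter measurableSet_ball
    exact measurableSet_lt hrm measurable_const
  have hi3 := hint _ hset (fun x hx => ball_subset_ball (by norm_num) hx.1)
  have himg : zm a (1 / 2) g '' {x : V | x ∈ ball (0 : V) (1 / 4) ∧ rho x < 2 * (2 * h)} =
      {x : V | x ∈ ball a (1 / 8) ∧ dl a T x < (2 * h) ^ 2} := by
    have hb8 := hball (1 / 4)
    have e8 : (1 / 2 : ℝ) * (1 / 4) = 1 / 8 := by norm_num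
    rw [e8] at hb8
    have hiff : ∀ x : V, rho x < 2 * (2 * h) ↔ dl a T (zm a (1 / 2) g x) < (2 * h) ^ 2 := by
      intro x
      rw [hdl]
      have h0 : 0 ≤ rho x := Real.sqrt_nonneg _
      constructor
      · intro h1
        nlinarith
      · intro h1
        by_contra h2
        push Not at h2
        nlinarith
    ext y
    constructor
    · rintro ⟨x, ⟨hx1, hx2⟩, rfl⟩
      refine ⟨?_, (hiff x).1 hx2⟩
      rw [← hb8]
      exact mem_image_of_mem _ hx1
    · rintro ⟨hy1, hy2⟩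
      rw [← hb8] at hy1
      obtain ⟨x, hx, rfl⟩ := hy1
      exact ⟨x, ⟨hx, (hiff x).2 hy2⟩, rfl⟩
  rw [hball] at hi1 hi2
  rw [himg] at hi3
  have e1 : (1 / 2 : ℝ) * (10 * (2 * σ)) = 10 * σ := by ring
  have e2 : (1 / 2 : ℝ) * (1 / 4) = 1 / 8 := by norm_num
  rw [e1] at hi1
  rw [e2] at hi2
  rw [hi1, hi2, hi3] at hmain
  set A := ∫⁻ x in ball a (10 * σ), ENNReal.ofReal (dl a T x) ∂(mu G) with hA
  set B := ∫⁻ x in {x : V | x ∈ ball a (1 / 8) ∧ dl a T x < (2 * h) ^ 2},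
    ENNReal.ofReal (dl a T x) ∂(mu G) with hB
  set D := ∫⁻ x in ball a (1 / 8), ENNReal.ofReal (dl a T x) ∂(mu G) with hD
  have h8 : (8 : ℝ≥0∞) = ENNReal.ofReal 8 := by norm_num
  have l1 : ENNReal.ofReal (((2 * σ) ^ 3)⁻¹) * (8 * A) = ENNReal.ofReal ((σ ^ 3)⁻¹) * A := by
    rw [← mul_assoc, h8, ← ENNReal.ofReal_mul (by positivity)]
    congr 2
    field_simp
    norm_num
  have l2 : ENNReal.ofReal (1 / Real.sqrt (2 * h * (2 * σ) ^ 5)) * (8 * B) =
      ENNReal.ofReal (1 / Real.sqrt (h * σ ^ 5)) * B := by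
    rw [← mul_assoc, h8, ← ENNReal.ofReal_mul (by positivity)]
    congr 2
    have h1 : 2 * h * (2 * σ) ^ 5 = 8 ^ 2 * (h * σ ^ 5) := by ring
    rw [h1, Real.sqrt_mul (by positivity), Real.sqrt_sq (by norm_num)]
    have h2 : 0 < Real.sqrt (h * σ ^ 5) := Real.sqrt_pos.2 (by positivity)
    field_simp
  have l3 : ENNReal.ofReal (Real.sqrt (2 * σ)) * (8 * D) ≤
      ENNReal.ofReal 12 * (ENNReal.ofReal (Real.sqrt σ) * D) := by
    rw [← mul_assoc, ← mul_assoc, h8, ← ENNReal.ofReal_mul (by positivity),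
      ← ENNReal.ofReal_mul (by positivity)]
    refine mul_le_mul' (ENNReal.ofReal_le_ofReal ?_) le_rfl
    have h1 : Real.sqrt (2 * σ) = Real.sqrt 2 * Real.sqrt σ := Real.sqrt_mul (by norm_num) _
    have h2 : Real.sqrt 2 ≤ 3 / 2 := by
      rw [Real.sqrt_le_left (by norm_num)]
      norm_num
    have h3 : 0 ≤ Real.sqrt σ := Real.sqrt_nonneg _
    rw [h1]
    nlinarith
  rw [l1, l2] at hmain
  refine hmain.trans ?_
  rw [ENNReal.ofReal_mul (by norm_num : (0 : ℝ) ≤ 12), mul_comm (ENNReal.ofReal 12), mul_assoc]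
  refine mul_le_mul' le_rfl ?_
  rw [mul_add]
  refine add_le_add ?_ l3
  have h12 : (1 : ℝ≥0∞) ≤ ENNReal.ofReal 12 := by
    rw [ENNReal.one_le_ofReal]
    norm_num
  exact le_mul_of_one_le_left zero_le h12

end Pool.Agent.H63.D3
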